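import Pool.Agent.K1H79.Q3.StmA
import Pool.Agent.TH847.LS.Cnt

/-! # Project Q3: statements of the pieces about the fields (Mathlib, StmA, TH847.LS.Cnt)

Owner helper79. -/

set_option autoImplicit false

namespace Pool.Agent.K1H79.Q3

open Finset NumberField Pool.Agent.TH847.LS
open scoped QuadraticAlgebra Classical nonZeroDivisors

/-- a quadratic extension `L = k(√α)` of `k = ℚ(ω)`, `α ∈ ℤ[ω]` squarefree -/
structure Dat (L : Type) [Field L] [NumberField L] where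
  om : E →+* 𝓞 L
  s : 𝓞 L
  α : E
  sq : s ^ 2 = om α
  sqf : Squarefree α
  σ : L ≃+* L
  σs : σ (s : L) = -(s : L)
  σo : ∀ z : E, σ ((om z : 𝓞 L) : L) = ((om z : 𝓞 L) : L)
  σσ : ∀ x : L, σ (σ x) = x
  gen : ∀ x : L, ∃ u v w : E, w ≠ 0 ∧ ((om w : 𝓞 L) : L) * x = ((om u + om v * s : 𝓞 L) : L)
  deg : Module.finrank ℚ L = 4

variable {L : Type} [Field L] [NumberField L]

/-- the conjugation on the integers -/
noncomputable def Dat.sg (d : Dat L) : 𝓞 L ≃+* 𝓞 L := RingOfIntegers.mapRingEquiv d.σ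

/-- the number of ideals of odd norm at most `T` -/
noncomputable def OddC (L : Type) [Field L] [NumberField L] (T : ℕ) : ℕ :=
  ((FI L T).filter fun I => Odd (Ideal.absNorm I)).card

/-- Q12: existence of the data -/
def S_DAT : Prop := ∀ (L : Type) [Field L] [NumberField L], Module.finrank ℚ L = 4 →
  (∃ z : L, z ^ 2 + z + 1 = 0) → Nonempty (Dat L)

/-- Q13: the discriminant -/
def S_DSC : Prop := ∃ C : ℝ, 0 < C ∧ ∀ (L : Type) [Field L] [NumberField L] (d : Dat L),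
  (nm d.α : ℝ) ≤ C * |(discr L : ℝ)| ∧ |(discr L : ℝ)| ≤ C * nm d.α

/-- Q14: the relative norm of an ideal is principal -/
def S_NRM : Prop := ∀ (L : Type) [Field L] [NumberField L] (d : Dat L) (𝔞 : Ideal (𝓞 L)), 𝔞 ≠ ⊥ →
  ∃ a : E, a ≠ 0 ∧ nm a = Ideal.absNorm 𝔞 ∧ 𝔞 * 𝔞.map (d.sg : 𝓞 L →+* 𝓞 L) = Ideal.span {d.om a}

/-- Q15: the number of the ideals of odd norm -/
def S_CNT : Prop := ∀ (L : Type) [Field L] [NumberField L] (d : Dat L) (χ : E → ℝ), IsQ d.α χ →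
  ∀ T : ℕ, 36 * (OddC L T : ℝ) = RS χ T

def S_CNTof : Prop := S_NRM → S_CNT

/-- Q16: from the ideals of odd norm to all ideals -/
def S_EVN : Prop := ∀ (L : Type) [Field L] [NumberField L] (_ : Dat L) (N : ℕ),
  (FI L N).card ≤ ∑ j ∈ range (N + 1), (j + 1) * OddC L (N / 4 ^ j)

/-- two ideals in the same cell -/
def Rel (K : ℝ) (L : Type) [Field L] [NumberField L] (𝔞 𝔟 : Ideal (𝓞 L)) : Prop :=
  ∃ x y : 𝓞 L, x ≠ 0 ∧ y ≠ 0 ∧ Ideal.span {x} * 𝔞 ^ 3 = Ideal.span {y} * 𝔟 ^ 3 ∧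
    ∀ w : InfinitePlace L, w (y : L) ≤ K *
      ((Ideal.absNorm 𝔞 : ℝ) / Ideal.absNorm 𝔟) ^ ((3 : ℝ) / Module.finrank ℚ L) * w (x : L)

/-- Q17: the counting inequality with multiplicities -/
def S_EVT : Prop := ∀ n : ℕ, 1 ≤ n → ∃ K : ℝ, 0 < K ∧ ∀ (L : Type) [Field L] [NumberField L],
  Module.finrank ℚ L = n → ∀ (S : Finset (Ideal (𝓞 L))) (T : ℕ), (∀ 𝔞 ∈ S, 𝔞 ≠ ⊥) →
    (∀ 𝔞 ∈ S, (S.filter fun 𝔟 => Rel K L 𝔞 𝔟).card ≤ T) →
    ∀ N : ℕ, 2 ^ n * √|(discr L : ℝ)| < N →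
      (S.card : ℝ) * (Nat.card {c : ClassGroup (𝓞 L) // c ^ 3 = 1} : ℝ) ≤
        T * ∑ J ∈ FI L N, (1 + Real.log ((N : ℝ) / Ideal.absNorm J)) ^ n

/-- Q18: few ideals in a cell -/
def S_TB : Prop := ∀ K ε : ℝ, 0 < K → 0 < ε → ∃ C : ℝ, 0 < C ∧ ∀ (L : Type) [Field L] [NumberField L]
  (_ : Dat L) (X : ℕ), 1 ≤ X → ∀ 𝔞 ∈ FI L X,
    (((FI L X).filter fun 𝔟 => Rel K L 𝔞 𝔟).card : ℝ) ≤ C * |(discr L : ℝ)| ^ ε * (X : ℝ) ^ ε *
      (1 + (X : ℝ) ^ (3 / 4 : ℝ) + (X : ℝ) ^ (9 / 4 : ℝ) * |(discr L : ℝ)| ^ (-(3 / 8) : ℝ))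

def S_TBof : Prop := S_DSC → S_NRM → S_LSV → S_TB

/-- the class number and the number of ideals (Minkowski) -/
def S_CLN : Prop := ∀ (L : Type) [Field L] [NumberField L], Module.finrank ℚ L = 4 →
  ∀ N : ℕ, 2 ^ 4 * √|(discr L : ℝ)| < N → Nat.card (ClassGroup (𝓞 L)) ≤ (FI L N).card

/-- the result for the quartic fields which contain `√-3` -/
def S_QW : Prop := ∃ δ C : ℝ, 0 < δ ∧ 0 < C ∧ ∀ (L : Type) [Field L] [NumberField L],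
  Module.finrank ℚ L = 4 → (∃ z : L, z ^ 2 + z + 1 = 0) →
    (Nat.card {c : ClassGroup (𝓞 L) // c ^ 3 = 1} : ℝ) ≤ C * |(discr L : ℝ)| ^ (1 / 2 - δ : ℝ)

/-- Q19: the final assembly -/
def S_QWof : Prop := S_DAT → S_DSC → S_REC → S_CNT → S_EVN → S_EVT → S_TB → S_CLN → S_HYP → S_QW

end Pool.Agent.K1H79.Q3
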