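import Pool.Agent.K1H79.Q3.Base

/-! # Project Q3: statements of the pieces about `ℤ[ω]` (imports only Mathlib and Base)

Owner helper79. -/

set_option autoImplicit false

namespace Pool.Agent.K1H79.Q3

open Finset
open scoped QuadraticAlgebra Classical

/-- the residue ring `(ℤ/g)[ω]` -/
abbrev Eg (g : ℕ) : Type := QuadraticAlgebra (ZMod g) (-1) (-1)

instance (g : ℕ) [NeZero g] : Fintype (Eg g) := Fintype.ofEquiv _ (QuadraticAlgebra.equivProd (-1) (-1)).symm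

/-- reduction modulo `g` -/
def redE (g : ℕ) : E →+* Eg g where
  toFun z := ⟨(z.re : ZMod g), (z.im : ZMod g)⟩
  map_one' := by ext <;> simp
  map_zero' := by ext <;> simp
  map_add' z w := by ext <;> simp
  map_mul' z w := by ext <;> simp

/-- the Jacobi symbol of the norm modulo `g` -/
noncomputable def XG (g : ℕ) (z : Eg g) : ℝ := ((jacobiSym ((QuadraticAlgebra.norm z).val : ℤ) g : ℤ) : ℝ)

/-- the Jacobi symbol modulo `M` -/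
noncomputable def XM (M : ℕ) (u : ZMod M) : ℝ := ((jacobiSym (u.val : ℤ) M : ℤ) : ℝ)

/-- the ring in which the Burgess argument takes place -/
abbrev RR (M g : ℕ) : Type := ZMod M × Eg g

/-- the character of this ring -/
noncomputable def XR (M g : ℕ) (x : RR M g) : ℝ := XM M x.1 * XG g x.2

/-- the map to this ring -/
def PhiR (M g : ℕ) (φ : E →+* ZMod M) : E →+* RR M g := φ.prod (redE g)

/-- the shape of the pairs `(M, g)` -/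
def Good (M g : ℕ) : Prop := Odd M ∧ Odd g ∧ Squarefree (M * g) ∧ ¬ 3 ∣ g

/-- a function which is periodic modulo `8` times the character of `RR M g`; `q = M g²` -/
def Per (q : ℕ) (χ : E → ℝ) : Prop :=
  ∃ (M g : ℕ) (φ : E →+* ZMod M) (ψ : E → ℝ), Good M g ∧ M * g ^ 2 = q ∧
    (∀ z w : E, ψ (z + 8 * w) = ψ z) ∧ (∀ z : E, |ψ z| ≤ 1) ∧
    ∀ z : E, χ z = ψ z * XR M g (PhiR M g φ z)

/-- `χ` is the quadratic residue symbol of `α` -/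
def IsQ (α : E) (χ : E → ℝ) : Prop :=
  χ 1 = 1 ∧ (∀ x y, χ (x * y) = χ x * χ y) ∧ (∀ z, ¬ Odd (nm z) → χ z = 0) ∧
    ∀ π : E, Prime π → Odd (nm π) → (π ∣ α → χ π = 0) ∧
      (¬ π ∣ α → (∃ x : E, π ∣ x ^ 2 - α) → χ π = 1) ∧
      (¬ π ∣ α → (¬ ∃ x : E, π ∣ x ^ 2 - α) → χ π = -1)

/-- Q1: quadratic reciprocity in `ℤ[ω]` -/
def S_REC : Prop := ∀ α : E, Squarefree α → ∃ (q : ℕ) (χ : E → ℝ), IsQ α χ ∧ Per q χ ∧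
  1 ≤ q ∧ q ≤ nm α ∧ nm α ≤ 4 * q

/-- Q2: the complete sums of the products of shifts -/
def S_TUP : Prop := ∀ r : ℕ, 1 ≤ r → ∃ K : ℝ, 1 ≤ K ∧ ∀ (M g : ℕ) [NeZero M] [NeZero g], Good M g →
  ∀ (c : Fin (2 * r) → ℕ) (j : Fin (2 * r)), (∀ i, i ≠ j → c i ≠ c j) →
    |∑ x : RR M g, ∏ i, XR M g (x + (c i : RR M g))| ≤
      K ^ (M * g).primeFactors.card * √((M * g ^ 2 : ℕ) : ℝ) *
        (Nat.gcd (∏ i ∈ univ.erase j, ((c i : ℤ) - c j).natAbs) (M * g) : ℝ)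

/-- Q3: the moments -/
def S_MOM : Prop := ∀ r : ℕ, 1 ≤ r → ∀ ε : ℝ, 0 < ε → ∃ C : ℝ, 0 < C ∧ ∀ (M g : ℕ) [NeZero M] [NeZero g],
  Good M g → ∀ B : ℕ, 1 ≤ B →
    ∑ x : RR M g, |∑ b ∈ range B, XR M g (x + (b : RR M g))| ^ (2 * r) ≤
      C * ((M * g ^ 2 : ℕ) : ℝ) ^ ε * ((B : ℝ) ^ r * ((M * g ^ 2 : ℕ) : ℝ) +
        (B : ℝ) ^ (2 * r) * √((M * g ^ 2 : ℕ) : ℝ))

def S_MOMof : Prop := S_TUP → S_MOM

/-- Q4: counting lattice points -/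
def S_ECT : Prop :=
  (∀ T : ℕ, ((EB T).card : ℝ) ≤ 12 * T) ∧
  (∃ C : ℝ, 0 < C ∧ ∀ (T : ℕ) (w : E), (((EB T).filter fun z => T < nm (z + w)).card : ℝ) ≤
    C * (√(T * nm w) + nm w + 1)) ∧
  (∃ C : ℝ, 0 < C ∧ ∀ (T : ℕ) (w : E), (((EB T).filter fun z => T < nm (z - w)).card : ℝ) ≤
    C * (√(T * nm w) + nm w + 1)) ∧
  (∀ (T : ℕ) (a : E), a ≠ 0 → ((((EB T).filter fun z => a ∣ z).card : ℕ) : ℝ) ≤ 12 * (T / nm a)) ∧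
  ∃ ρ C : ℝ, 0 < ρ ∧ 0 < C ∧ ∀ T : ℕ, |((((EB T).filter fun z => Odd (nm z)).card : ℕ) : ℝ) - ρ * T| ≤
    C * √T

/-- Q5: the Burgess inequality in a finite ring -/
def S_BG : Prop := ∀ r : ℕ, 1 ≤ r → ∃ C : ℝ, 0 < C ∧
  ∀ (R : Type) [CommRing R] [Fintype R] (Φ : E →+* R) (X : R → ℝ) (q : ℕ),
    (∀ x y, X (x * y) = X x * X y) → (∀ x, |X x| ≤ 1) → (∀ z : E, Φ z = 0 → z ≠ 0 → q ≤ nm z) →
    ∀ (P : Finset ℕ) (a : ℕ → E) (A B T : ℕ),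
      (∀ p ∈ P, p.Prime ∧ p ≤ A ∧ nm (a p) = p ∧ IsUnit (Φ (8 * a p))) → P.Nonempty → 1 ≤ B → 1 ≤ T →
      16 * A * T < q →
    ∀ ψ : E → ℝ, (∀ z w : E, ψ (z + 8 * w) = ψ z) → (∀ z, |ψ z| ≤ 1) →
      |∑ z ∈ EB T, ψ z * X (Φ z)| ≤ C * (B * √(A * T) + B ^ 2 * A) +
        C * T * ((∑ x : R, |∑ b ∈ range B, X (x + (b : R))| ^ (2 * r)) /
          (B ^ (2 * r) * (P.card * T))) ^ (1 / (2 * r : ℝ))

def S_BGof : Prop := S_ECT → S_BG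

/-- Q6: primes which are norms -/
def S_PRS : Prop := ∀ ε : ℝ, 0 < ε → ∃ C : ℝ, 0 < C ∧ ∀ q A : ℕ, 1 ≤ q → (q : ℝ) ^ ε ≤ A → C ≤ A →
  ∃ P : Finset ℕ, (∀ p ∈ P, p.Prime ∧ p ≤ A ∧ ¬ p ∣ q ∧ p ≠ 2 ∧ ∃ a : E, nm a = p) ∧
    (A : ℝ) ^ (1 - ε) ≤ (P.card : ℝ)

/-- Q7: Burgess' bound -/
def S_BUR : Prop := ∀ η : ℝ, 0 < η → ∃ δ C : ℝ, 0 < δ ∧ 0 < C ∧ ∀ (q : ℕ) (χ : E → ℝ), Per q χ →
  ∀ T : ℕ, (q : ℝ) ^ (1 / 4 + η) ≤ T → (T : ℝ) ≤ (q : ℝ) ^ (1 / 2 + δ) →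
    |∑ z ∈ EB T, χ z| ≤ C * T * (q : ℝ) ^ (-δ)

def S_BURof : Prop := S_MOM → S_BG → S_PRS → S_BUR

/-- the sum `∑ χ(d)` over the pairs `d, e` with `e` odd and `N(d) N(e) ≤ T` -/
noncomputable def RS (χ : E → ℝ) (T : ℕ) : ℝ :=
  ∑ d ∈ EB T, χ d * (((EB (T / nm d)).filter fun e => Odd (nm e)).card : ℝ)

/-- Q8: the hyperbola method -/
def S_HYP : Prop := ∀ η : ℝ, 0 < η → ∃ δ C : ℝ, 0 < δ ∧ 0 < C ∧ ∀ (q : ℕ) (χ : E → ℝ), Per q χ →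
  ∃ κ : ℝ, ∀ T : ℕ, (q : ℝ) ^ (1 / 4 + η) ≤ T → (T : ℝ) ≤ (q : ℝ) ^ (1 / 2 + δ) →
    |RS χ T - κ * T| ≤ C * T * (q : ℝ) ^ (-δ)

def S_HYPof : Prop := S_ECT → S_BUR → S_HYP

/-- Q9: cubes among the values of a quadratic polynomial modulo `p` -/
def S_CUB : Prop := ∀ (p : ℕ) [Fact p.Prime], p % 3 = 1 → ∀ P R S ζ : ZMod p, P ≠ 0 → ζ ≠ 0 →
  ((univ.filter fun u : ZMod p => ∃ a : ZMod p, P * u ^ 2 + R * u + S = ζ * a ^ 3).card : ℝ) ≤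
    p / 3 + 2 * √p + 3

/-- Q10: the primes `1 mod 3` -/
def S_MER : Prop := ∃ C : ℝ, ∀ Q : ℕ, 1 ≤ Q →
  2 / 5 * Real.log Q - C ≤ ∑ p ∈ (Icc 1 Q).filter (fun p => p.Prime ∧ p % 3 = 1), Real.log p / p

/-- Q11: the larger sieve: few values of a quadratic polynomial are cubes -/
def S_LSV : Prop := ∀ ε : ℝ, 0 < ε → ∃ C : ℝ, 0 < C ∧ ∀ (P R S ζ : E), P ≠ 0 → IsUnit ζ →
  ∀ W : ℝ, 1 ≤ W → ∀ U : Finset E, (∀ u ∈ U, ∀ v ∈ U, (nm (u - v) : ℝ) ≤ W) →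
    (∀ u ∈ U, ∃ a : E, P * u ^ 2 + R * u + S = ζ * a ^ 3) →
    (U.card : ℝ) ≤ C * √W * (nm P : ℝ) ^ ε

def S_LSVof : Prop := S_CUB → S_MER → S_LSV

end Pool.Agent.K1H79.Q3
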