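import Pool.Agent.K1H79.Q3.Fin
import Pool.Agent.K1H1.Q3.Dat
import Pool.Agent.K1H45.Q3.Dsc
import Pool.Agent.K1H45.Q3.Nrm
import Pool.Agent.K1H89.Q3.Rec5
import Pool.Agent.K1H37.Q3.Cnt
import Pool.Agent.K1H69.Q3.EVN
import Pool.Agent.K1H69.Q3.MOM
import Pool.Agent.K1H61.Q3.Evt
import Pool.Agent.K1H30.Q3.TB
import Pool.Agent.K1H24.Q3.LSV
import Pool.Agent.K1H40.Q3.Cub
import Pool.Agent.K1H40.Q3.Ect
import Pool.Agent.K1H4.Q3.Mer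
import Pool.Agent.K1H33.Q3.Hyp
import Pool.Agent.K1H16.Q3.Bur
import Pool.Agent.K1H72.Q3.TUP
import Pool.Agent.K1H43.Q3.Bg
import Pool.Agent.K1H58.Q3.Prs

/-! # Project Q3: the quartic fields which contain `√-3` -/

set_option autoImplicit false

namespace Pool.Agent.K1H79.Q3

theorem bur : S_BUR :=
  Pool.Agent.K1H16.Q3.t_BURof (Pool.Agent.K1H69.Q3.t_MOMof Pool.Agent.K1H72.Q3.t_TUP)
    (Pool.Agent.K1H43.Q3.t_BGof Pool.Agent.K1H40.Q3.t_ECT) Pool.Agent.K1H58.Q3.t_PRS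

theorem hyp : S_HYP := Pool.Agent.K1H33.Q3.t_HYPof Pool.Agent.K1H40.Q3.t_ECT bur

theorem tb : S_TB :=
  Pool.Agent.K1H30.Q3.t_TB Pool.Agent.K1H45.Q3.t_DSC Pool.Agent.K1H45.Q3.t_NRM
    (Pool.Agent.K1H24.Q3.t_LSVof Pool.Agent.K1H40.Q3.t_CUB Pool.Agent.K1H4.Q3.t_MER)

theorem qw : S_QW :=
  t_QWof Pool.Agent.K1H1.Q3.t_DAT Pool.Agent.K1H45.Q3.t_DSC Pool.Agent.K1H89.Q3.t_REC
    (Pool.Agent.K1H37.Q3.t_CNTof Pool.Agent.K1H45.Q3.t_NRM)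
    (Pool.Agent.K1H69.Q3.t_EVN Pool.Agent.K1H45.Q3.t_NRM) Pool.Agent.K1H61.Q3.t_EVT tb
    Pool.Agent.K1H61.Q3.t_CLN hyp

end Pool.Agent.K1H79.Q3
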