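import Mathlib

/-! # The ring `ℤ[ω]`

Owner helper79.  Project Q3: 3-torsion of the class groups of the quadratic extensions of `ℚ(√-3)`. -/

set_option autoImplicit false

namespace Pool.Agent.K1H79.Q3

/-- the ring `ℤ[ω]`, `ω² = -1 - ω`; the element `⟨x, y⟩` is `x + y ω` -/
abbrev E : Type := QuadraticAlgebra ℤ (-1) (-1)

/-- the norm `x² - x y + y²` -/
def nm (z : E) : ℕ := (QuadraticAlgebra.norm z).natAbs

theorem norm_eq (z : E) : QuadraticAlgebra.norm z = z.re ^ 2 - z.re * z.im + z.im ^ 2 := by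
  rw [QuadraticAlgebra.norm_def]; ring

theorem norm_nonneg' (z : E) : 0 ≤ QuadraticAlgebra.norm z := by
  rw [norm_eq]; nlinarith [sq_nonneg (z.re - z.im), sq_nonneg (z.re), sq_nonneg (z.im), sq_nonneg (2 * z.re - z.im)]

theorem nm_cast (z : E) : ((nm z : ℕ) : ℤ) = z.re ^ 2 - z.re * z.im + z.im ^ 2 := by
  rw [nm, Int.natAbs_of_nonneg (norm_nonneg' z), norm_eq]

theorem nm_mul (z w : E) : nm (z * w) = nm z * nm w := by
  rw [nm, map_mul, Int.natAbs_mul]; rfl

theorem nm_zero : nm (0 : E) = 0 := by simp [nm]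

theorem nm_one : nm (1 : E) = 1 := by simp [nm]

theorem nm_eq_zero {z : E} : nm z = 0 ↔ z = 0 := by
  constructor
  · intro h
    have h1 : z.re ^ 2 - z.re * z.im + z.im ^ 2 = 0 := by rw [← nm_cast, h]; rfl
    have h2 : z.im ^ 2 = 0 := by nlinarith [sq_nonneg (2 * z.re - z.im), sq_nonneg z.im]
    have h3 : z.im = 0 := by simpa using h2
    rw [h3] at h1
    have h4 : z.re = 0 := by simpa using h1
    exact QuadraticAlgebra.ext h4 h3
  · rintro rfl
    exact nm_zero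

theorem nm_pos {z : E} (h : z ≠ 0) : 0 < nm z := Nat.pos_of_ne_zero fun h' => h (nm_eq_zero.1 h')

instance : IsDomain E := by
  have : NoZeroDivisors E := ⟨by
    intro a b h
    have h1 : nm a * nm b = 0 := by rw [← nm_mul, h, nm_zero]
    rcases Nat.mul_eq_zero.1 h1 with h2 | h2
    · exact Or.inl (nm_eq_zero.1 h2)
    · exact Or.inr (nm_eq_zero.1 h2)⟩
  have : Nontrivial E := inferInstance
  exact NoZeroDivisors.to_isDomain E

/-- division with remainder -/
theorem exists_quo (a b : E) (hb : b ≠ 0) : ∃ q : E, nm (a - q * b) < nm b := by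
  have hN : 0 < (nm b : ℤ) := by exact_mod_cast nm_pos hb
  obtain ⟨c, hc⟩ : ∃ c : E, c = a * star b := ⟨_, rfl⟩
  -- round the coordinates of `c / nm b`
  have hr : ∀ x : ℤ, ∃ q : ℤ, |2 * (x - q * (nm b : ℤ))| ≤ (nm b : ℤ) := by
    intro x
    refine ⟨(2 * x + nm b) / (2 * nm b), ?_⟩
    have h1 := Int.emod_add_mul_ediv (2 * x + nm b) (2 * nm b)
    have h2 := Int.emod_nonneg (2 * x + nm b) (show (2 * (nm b : ℤ)) ≠ 0 by omega)
    have h3 := Int.emod_lt_of_pos (2 * x + nm b) (show 0 < (2 * (nm b : ℤ)) by omega)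
    rw [abs_le]
    constructor <;> nlinarith
  obtain ⟨q1, h1⟩ := hr c.re
  obtain ⟨q2, h2⟩ := hr c.im
  refine ⟨⟨q1, q2⟩, ?_⟩
  have hbb : b * star b = ((nm b : ℤ) : E) := by
    rw [← QuadraticAlgebra.algebraMap_norm_eq_mul_star]
    rw [nm, Int.natAbs_of_nonneg (norm_nonneg' b)]
    rfl
  have e1 : (a - ⟨q1, q2⟩ * b) * star b = c - ⟨q1 * nm b, q2 * nm b⟩ := by
    rw [sub_mul, mul_assoc, hbb, ← hc]
    congr 1
    ext <;> simp [mul_comm]
  have hst : nm (star b) = nm b := by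
    rw [nm, QuadraticAlgebra.norm_star]; rfl
  have e2 : (nm (a - ⟨q1, q2⟩ * b) : ℤ) * nm b =
      (c.re - q1 * nm b) ^ 2 - (c.re - q1 * nm b) * (c.im - q2 * nm b) + (c.im - q2 * nm b) ^ 2 := by
    have h3 : nm ((a - ⟨q1, q2⟩ * b) * star b) = nm (a - ⟨q1, q2⟩ * b) * nm b := by
      rw [nm_mul, hst]
    have h4 : ((nm ((a - ⟨q1, q2⟩ * b) * star b) : ℕ) : ℤ) = (nm (a - ⟨q1, q2⟩ * b) : ℤ) * nm b := by
      rw [h3]; push_cast; rfl
    rw [← h4, e1, nm_cast]
    rfl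
  have h5 := abs_le.1 h1
  have h6 := abs_le.1 h2
  have h7 : (nm (a - ⟨q1, q2⟩ * b) : ℤ) * nm b < (nm b : ℤ) * nm b := by
    rw [e2]
    obtain ⟨u, hu⟩ : ∃ u : ℤ, u = c.re - q1 * nm b := ⟨_, rfl⟩
    obtain ⟨v, hv⟩ : ∃ v : ℤ, v = c.im - q2 * nm b := ⟨_, rfl⟩
    rw [← hu] at h5 ⊢
    rw [← hv] at h6 ⊢
    have a1 : (2 * u) ^ 2 ≤ (nm b : ℤ) ^ 2 := sq_le_sq' (by linarith) (by linarith)
    have a2 : (2 * v) ^ 2 ≤ (nm b : ℤ) ^ 2 := sq_le_sq' (by linarith) (by linarith)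
    have a3 : -((2 * u) * (2 * v)) ≤ (nm b : ℤ) ^ 2 := by
      nlinarith [sq_nonneg (2 * u + 2 * v)]
    nlinarith
  have h8 : (nm (a - ⟨q1, q2⟩ * b) : ℤ) < nm b := lt_of_mul_lt_mul_right h7 hN.le
  exact_mod_cast h8

noncomputable instance : EuclideanDomain E where
  quotient a b := open Classical in if h : b = 0 then 0 else (exists_quo a b h).choose
  quotient_zero a := by simp
  remainder a b := a - b * (open Classical in if h : b = 0 then 0 else (exists_quo a b h).choose)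
  quotient_mul_add_remainder_eq a b := by ring
  r a b := nm a < nm b
  r_wellFounded := (measure nm).wf
  remainder_lt a b hb := by
    rw [dif_neg hb, mul_comm b]
    exact (exists_quo a b hb).choose_spec
  mul_left_not_lt a b hb := by
    rw [not_lt, nm_mul]
    exact Nat.le_mul_of_pos_right _ (nm_pos hb)

theorem isUnit_iff' {z : E} : IsUnit z ↔ nm z = 1 := by
  rw [QuadraticAlgebra.isUnit_iff_norm_isUnit, Int.isUnit_iff_natAbs_eq]; rfl

/-- the nonzero elements of norm at most `T` -/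
noncomputable def EB (T : ℕ) : Finset E :=
  ((Finset.Icc (-(T : ℤ)) T ×ˢ Finset.Icc (-(T : ℤ)) T).image fun p => (⟨p.1, p.2⟩ : E)).filter
    fun z => z ≠ 0 ∧ nm z ≤ T

theorem mem_EB {T : ℕ} {z : E} : z ∈ EB T ↔ z ≠ 0 ∧ nm z ≤ T := by
  rw [EB, Finset.mem_filter, and_iff_right_iff_imp]
  rintro ⟨h0, h⟩
  have h1 : z.re ^ 2 - z.re * z.im + z.im ^ 2 ≤ (T : ℤ) := by rw [← nm_cast]; exact_mod_cast h
  have hT : (1 : ℤ) ≤ T := by
    have := nm_pos h0
    exact_mod_cast this.trans_le h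
  rw [Finset.mem_image]
  refine ⟨(z.re, z.im), ?_, rfl⟩
  rw [Finset.mem_product, Finset.mem_Icc, Finset.mem_Icc]
  have b1 : 3 * z.re ^ 2 ≤ 4 * T := by nlinarith [sq_nonneg (2 * z.im - z.re)]
  have b2 : 3 * z.im ^ 2 ≤ 4 * T := by nlinarith [sq_nonneg (2 * z.re - z.im)]
  refine ⟨⟨?_, ?_⟩, ?_, ?_⟩
  · by_contra hcon
    push Not at hcon
    simp only at hcon
    nlinarith
  · by_contra hcon
    push Not at hcon
    simp only at hcon
    nlinarith
  · by_contra hcon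
    push Not at hcon
    simp only at hcon
    nlinarith
  · by_contra hcon
    push Not at hcon
    simp only at hcon
    nlinarith

end Pool.Agent.K1H79.Q3
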