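import Pool.Agent.K1H79.Q3.FinA

/-! # Project Q3: the final assembly -/

set_option autoImplicit false

namespace Pool.Agent.K1H79.Q3

open Finset NumberField Pool.Agent.TH847.LS Filter
open scoped QuadraticAlgebra Classical nonZeroDivisors

theorem evp (a b c : ℝ) (h : a < b) : ∀ᶠ x : ℝ in atTop, c * x ^ a ≤ x ^ b := by
  have h1 : ∀ᶠ x : ℝ in atTop, c ≤ x ^ (b - a) := (tendsto_rpow_atTop (by linarith)).eventually_ge_atTop _
  filter_upwards [h1, eventually_gt_atTop 0] with x hx hx0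
  calc c * x ^ a ≤ x ^ (b - a) * x ^ a := mul_le_mul_of_nonneg_right hx (by positivity)
    _ = x ^ b := by rw [← Real.rpow_add hx0]; congr 1; ring

theorem evlog (a : ℝ) (h : 0 < a) : ∀ᶠ x : ℝ in atTop, 1 + Real.log (17 * √x) ≤ x ^ a := by
  have h1 := (isLittleO_log_rpow_atTop h).def (show (0 : ℝ) < 1 / 2 by norm_num)
  have h2 : ∀ᶠ x : ℝ in atTop, 2 * (1 + Real.log 17) ≤ x ^ a := (tendsto_rpow_atTop h).eventually_ge_atTop _
  filter_upwards [h1, h2, eventually_ge_atTop 1] with x hx hx2 hx1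
  have h3 : 0 ≤ Real.log x := Real.log_nonneg hx1
  rw [Real.norm_eq_abs, Real.norm_eq_abs, abs_of_nonneg h3, abs_of_nonneg (by positivity)] at hx
  rw [Real.log_mul (by norm_num) (by positivity), Real.log_sqrt (by linarith)]
  linarith

theorem evs (Cd δ1 : ℝ) (hCd : 0 < Cd) (hδ1 : 0 < δ1) : ∃ D0 : ℝ, 1 ≤ D0 ∧ ∀ D : ℝ, D0 ≤ D →
    (Cd * D) ^ (1 / 4 + 1 / 100 : ℝ) ≤ D ^ (27 / 100 : ℝ) ∧
    2 * D ^ (27 / 100 : ℝ) ≤ (D / (4 * Cd)) ^ (1 / 2 + δ1) ∧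
    17 * √D ≤ (D / (4 * Cd)) ^ (1 / 2 + δ1) ∧
    1 + Real.log (17 * √D) ≤ D ^ (1 / 4000 : ℝ) ∧
    2 * D ^ (27 / 100 : ℝ) ≤ D ^ (1 / 3 : ℝ) := by
  have c1 := evp (1 / 4 + 1 / 100) (27 / 100) (Cd ^ (1 / 4 + 1 / 100 : ℝ)) (by norm_num)
  have c2 := evp (27 / 100) (1 / 2 + δ1) (2 * (4 * Cd) ^ (1 / 2 + δ1)) (by linarith)
  have c3 := evp (1 / 2) (1 / 2 + δ1) (17 * (4 * Cd) ^ (1 / 2 + δ1)) (by linarith)
  have c4 := evlog (1 / 4000) (by norm_num)
  have c5 := evp (27 / 100) (1 / 3) 2 (by norm_num)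
  obtain ⟨D0, hD0⟩ := eventually_atTop.1 ((((c1.and c2).and c3).and c4).and c5)
  refine ⟨max D0 1, le_max_right _ _, fun D hD => ?_⟩
  have hD1 : 1 ≤ D := (le_max_right _ _).trans hD
  have hDp : 0 < D := by linarith
  obtain ⟨⟨⟨⟨h1, h2⟩, h3⟩, h4⟩, h5⟩ := hD0 D ((le_max_left _ _).trans hD)
  have hp : 0 < (4 * Cd) ^ (1 / 2 + δ1) := by positivity
  refine ⟨?_, ?_, ?_, h4, h5⟩
  · rw [Real.mul_rpow hCd.le hDp.le]
    exact h1
  · rw [Real.div_rpow hDp.le (by positivity), le_div_iff₀ hp]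
    linarith
  · rw [Real.div_rpow hDp.le (by positivity), le_div_iff₀ hp, Real.sqrt_eq_rpow]
    linarith

theorem t_QWof : S_QWof := by
  intro hDAT hDSC hREC hCNT hEVN hEVT hTB hCLN hHYP
  obtain ⟨δ1, C1, hδ1, hC1, hH⟩ := hHYP (1 / 100) (by norm_num)
  obtain ⟨Cd, hCd, hdsc⟩ := hDSC
  obtain ⟨K, hK, hevt⟩ := hEVT 4 (by norm_num)
  obtain ⟨CT, hCT, htb⟩ := hTB K (1 / 1000) hK (by norm_num)
  obtain ⟨D0, hD01, hev⟩ := evs Cd δ1 hCd hδ1
  obtain ⟨δ, hδ⟩ : ∃ δ : ℝ, δ = min (min δ1 (1 / 32)) (1 / 2) := ⟨_, rfl⟩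
  have hδ0 : 0 < δ := by rw [hδ]; positivity
  have hδa : δ ≤ δ1 := by rw [hδ]; exact (min_le_left _ _).trans (min_le_left _ _)
  have hδb : δ ≤ 1 / 32 := by rw [hδ]; exact (min_le_left _ _).trans (min_le_right _ _)
  have hδc : δ ≤ 1 / 2 := by rw [hδ]; exact min_le_right _ _
  obtain ⟨Cs, hCs⟩ : ∃ Cs : ℝ, Cs = (17 * √D0 + 1) ^ 2 * (2 * (17 * √D0) + 1) ^ 4 := ⟨_, rfl⟩
  obtain ⟨Ca, hCa⟩ : ∃ Ca : ℝ, Ca = 4 * C1 * (4 * Cd) ^ δ1 * 17 := ⟨_, rfl⟩
  obtain ⟨Cb, hCb⟩ : ∃ Cb : ℝ, Cb = 6 * (8 * (CT + 1)) * 17 := ⟨_, rfl⟩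
  have hCs0 : 0 < Cs := by rw [hCs]; positivity
  have hCa0 : 0 < Ca := by rw [hCa]; positivity
  have hCb0 : 0 < Cb := by rw [hCb]; positivity
  refine ⟨δ, Cs + Ca + Cb, hδ0, by positivity, ?_⟩
  intro L _ _ hdeg hz
  obtain ⟨d⟩ := hDAT L hdeg hz
  obtain ⟨q, χ, hQ, hP, hq1, hqα, hαq⟩ := hREC d.α d.sqf
  obtain ⟨hα1, hα2⟩ := hdsc L d
  obtain ⟨D, hD⟩ : ∃ D : ℝ, D = |(discr L : ℝ)| := ⟨_, rfl⟩
  rw [← hD] at hα1 hα2 ⊢
  have hD1 : 1 ≤ D := by
    rw [hD]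
    have h0 : discr L ≠ 0 := discr_ne_zero L
    have : (1 : ℤ) ≤ |discr L| := Int.one_le_abs h0
    exact_mod_cast this
  have hDp : 0 < D := by linarith
  obtain ⟨N, hN⟩ : ∃ N : ℕ, N = ⌊16 * √D⌋₊ + 1 := ⟨_, rfl⟩
  have hsq : 1 ≤ √D := by rw [Real.one_le_sqrt]; exact hD1
  have hN1 : 16 * √D < N := by rw [hN]; push_cast; exact Nat.lt_floor_add_one _
  have hN2 : (N : ℝ) ≤ 17 * √D := by
    rw [hN]; push_cast
    have := Nat.floor_le (show 0 ≤ 16 * √D by positivity)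
    linarith
  have hNpos : (1 : ℝ) ≤ N := by linarith
  have hN3 : 2 ^ 4 * √|(discr L : ℝ)| < N := by rw [← hD]; norm_num; linarith
  have hcl : (Nat.card {c : ClassGroup (𝓞 L) // c ^ 3 = 1} : ℝ) ≤ (FI L N).card := by
    have h1 : Nat.card {c : ClassGroup (𝓞 L) // c ^ 3 = 1} ≤ Nat.card (ClassGroup (𝓞 L)) := by
      have : Finite (ClassGroup (𝓞 L)) := inferInstance
      exact Nat.card_le_card_of_injective _ Subtype.val_injective
    exact_mod_cast h1.trans (hCLN L hdeg N hN3)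
  have hpow1 : 1 ≤ D ^ (1 / 2 - δ : ℝ) := Real.one_le_rpow hD1 (by linarith)
  rcases lt_or_ge D D0 with hsm | hbig
  · -- small discriminant
    have h1 := crude hCNT hEVN d hQ hP N
    have h2 : (N : ℝ) ≤ 17 * √D0 := hN2.trans (by
      have := Real.sqrt_le_sqrt hsm.le
      linarith)
    have h3 : ((N : ℝ) + 1) ^ 2 * (2 * N + 1) ^ 4 ≤ Cs := by
      rw [hCs]
      gcongr
    have h4 : Cs ≤ (Cs + Ca + Cb) * D ^ (1 / 2 - δ : ℝ) := by nlinarith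
    linarith
  obtain ⟨e1, e2, e3, e4, e5⟩ := hev D hbig
  have hqD : (q : ℝ) ≤ Cd * D := by
    have : (q : ℝ) ≤ nm d.α := by exact_mod_cast hqα
    linarith
  have hDq : D / (4 * Cd) ≤ q := by
    rw [div_le_iff₀ (by positivity)]
    have h1 : (nm d.α : ℝ) ≤ 4 * q := by exact_mod_cast hαq
    nlinarith
  have hq1' : (1 : ℝ) ≤ q := by exact_mod_cast hq1
  obtain ⟨X, hX⟩ : ∃ X : ℕ, X = ⌈D ^ (27 / 100 : ℝ)⌉₊ := ⟨_, rfl⟩
  have hDs1 : 1 ≤ D ^ (27 / 100 : ℝ) := Real.one_le_rpow hD1 (by norm_num)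
  have hX1 : D ^ (27 / 100 : ℝ) ≤ X := by rw [hX]; exact Nat.le_ceil _
  have hX2 : (X : ℝ) ≤ 2 * D ^ (27 / 100 : ℝ) := by
    rw [hX]
    have := Nat.ceil_lt_add_one (show 0 ≤ D ^ (27 / 100 : ℝ) by positivity)
    linarith
  have hXpos : (1 : ℝ) ≤ X := hDs1.trans hX1
  have hXnat : 1 ≤ X := by exact_mod_cast hXpos
  have hqX : (q : ℝ) ^ (1 / 4 + 1 / 100 : ℝ) ≤ X :=
    (Real.rpow_le_rpow (by linarith) hqD (by norm_num)).trans (e1.trans hX1)
  have hup : ∀ T : ℝ, T ≤ (D / (4 * Cd)) ^ (1 / 2 + δ1) → T ≤ (q : ℝ) ^ (1 / 2 + δ1) := fun T hT =>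
    hT.trans (Real.rpow_le_rpow (by positivity) hDq (by positivity))
  have hXq : (X : ℝ) ≤ (q : ℝ) ^ (1 / 2 + δ1) := hup _ (hX2.trans e2)
  have hNq : (N : ℝ) ≤ (q : ℝ) ^ (1 / 2 + δ1) := hup _ (hN2.trans e3)
  obtain ⟨κ, hκ⟩ := hH q χ hP
  obtain ⟨u, hu⟩ : ∃ u : ℝ, u = C1 * (q : ℝ) ^ (-δ1) := ⟨_, rfl⟩
  have hu0 : 0 < u := by rw [hu]; positivity
  have hκ' : ∀ T : ℕ, (q : ℝ) ^ (1 / 4 + 1 / 100 : ℝ) ≤ T → (T : ℝ) ≤ (q : ℝ) ^ (1 / 2 + δ1) →
      |36 * (OddC L T : ℝ) - κ * T| ≤ u * T := by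
    intro T h1 h2
    rw [hCNT L d χ hQ T, hu]
    have := hκ T h1 h2
    calc |RS χ T - κ * T| ≤ C1 * T * (q : ℝ) ^ (-δ1) := this
      _ = _ := by ring
  -- the value at X
  have hAX := abs_le.1 (hκ' X hqX hXq)
  have hO0 : (0 : ℝ) ≤ OddC L X := Nat.cast_nonneg _
  have hkp : 0 ≤ κ + u := by
    have h1 : 0 ≤ (κ + u) * X := by nlinarith [hAX.2]
    by_contra hcon
    push Not at hcon
    nlinarith
  -- the number of ideals of norm at most N
  have hFI : ((FI L N).card : ℝ) ≤ (κ + u) / 36 * (3 * N) := by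
    have h1 : ((FI L N).card : ℝ) ≤ ∑ j ∈ range (N + 1), ((j : ℝ) + 1) * (OddC L (N / 4 ^ j) : ℝ) := by
      exact_mod_cast hEVN L d N
    have h2 := sum_four ((κ + u) / 36) X (by positivity) (by positivity) N (fun j => (OddC L (N / 4 ^ j) : ℝ))
      (by
        intro j hj
        simp only [hj, OddC_zero, Nat.cast_zero]) (by
        intro j
        rcases le_or_gt ((q : ℝ) ^ (1 / 4 + 1 / 100 : ℝ)) ((N / 4 ^ j : ℕ) : ℝ) with h | h
        · left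
          have h3 : ((N / 4 ^ j : ℕ) : ℝ) ≤ (q : ℝ) ^ (1 / 2 + δ1) := by
            have : ((N / 4 ^ j : ℕ) : ℝ) ≤ N := by exact_mod_cast Nat.div_le_self _ _
            linarith
          have h4 := abs_le.1 (hκ' _ h h3)
          nlinarith [h4.2]
        · right
          have h3 : N / 4 ^ j ≤ X := by
            have : ((N / 4 ^ j : ℕ) : ℝ) ≤ X := by linarith
            exact_mod_cast this
          have h4 : (OddC L (N / 4 ^ j) : ℝ) ≤ OddC L X := by exact_mod_cast OddC_mono h3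
          nlinarith [hAX.2])
    have h3 : (1 + Real.log N) ^ 2 * X ≤ N := by
      have g1 : 1 + Real.log N ≤ D ^ (1 / 4000 : ℝ) := by
        have := Real.log_le_log (by linarith) hN2
        linarith
      have g2 : 0 ≤ 1 + Real.log N := by
        have := Real.log_natCast_nonneg N
        linarith
      calc (1 + Real.log N) ^ 2 * X ≤ (D ^ (1 / 4000 : ℝ)) ^ 2 * (D ^ (1 / 3 : ℝ)) := by
            gcongr
            exact hX2.trans e5
        _ = D ^ (1 / 4000 * 2 + 1 / 3 : ℝ) := by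
            rw [Real.rpow_add hDp, Real.rpow_mul hDp.le]
            norm_num
        _ ≤ D ^ (1 / 2 : ℝ) := Real.rpow_le_rpow_of_exponent_le hD1 (by norm_num)
        _ ≤ N := by rw [← Real.sqrt_eq_rpow]; linarith
    refine h1.trans (h2.trans ?_)
    exact mul_le_mul_of_nonneg_left (by linarith) (by positivity)
  rcases lt_or_ge (κ + u) (4 * u) with hc | hc
  · -- few ideals
    have h1 : ((FI L N).card : ℝ) ≤ 4 * u * N := by
      refine hFI.trans ?_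
      have : (κ + u) / 36 * (3 * N) ≤ (4 * u) / 36 * (3 * N) := by
        gcongr
      nlinarith
    have h2 : u ≤ C1 * (4 * Cd) ^ δ1 * D ^ (-δ1) := by
      rw [hu, mul_assoc]
      refine mul_le_mul_of_nonneg_left ?_ hC1.le
      calc (q : ℝ) ^ (-δ1) ≤ (D / (4 * Cd)) ^ (-δ1) :=
            Real.rpow_le_rpow_of_nonpos (by positivity) hDq (by linarith)
        _ = (4 * Cd) ^ δ1 * D ^ (-δ1) := by
            rw [Real.div_rpow hDp.le (by positivity), Real.rpow_neg (by positivity : (0 : ℝ) ≤ 4 * Cd),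
              div_inv_eq_mul, mul_comm]
    have h3 : 4 * u * N ≤ Ca * D ^ (1 / 2 - δ1 : ℝ) := by
      calc 4 * u * N ≤ 4 * (C1 * (4 * Cd) ^ δ1 * D ^ (-δ1)) * (17 * √D) := by gcongr
        _ = Ca * D ^ (1 / 2 - δ1 : ℝ) := by
            rw [hCa, sub_eq_add_neg, Real.rpow_add hDp, Real.sqrt_eq_rpow]
            ring
    have h4 : D ^ (1 / 2 - δ1 : ℝ) ≤ D ^ (1 / 2 - δ : ℝ) :=
      Real.rpow_le_rpow_of_exponent_le hD1 (by linarith)
    have h5 : Ca * D ^ (1 / 2 - δ1 : ℝ) ≤ Ca * D ^ (1 / 2 - δ : ℝ) := mul_le_mul_of_nonneg_left h4 hCa0.le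
    nlinarith
  · -- many ideals
    have hOX : (κ + u) * X / 72 ≤ (OddC L X : ℝ) := by nlinarith [hAX.1]
    obtain ⟨B, hB⟩ : ∃ B : ℝ, B = CT * D ^ (1 / 1000 : ℝ) * (X : ℝ) ^ (1 / 1000 : ℝ) *
        (1 + (X : ℝ) ^ (3 / 4 : ℝ) + (X : ℝ) ^ (9 / 4 : ℝ) * D ^ (-(3 / 8) : ℝ)) := ⟨_, rfl⟩
    have hB0 : 0 ≤ B := by rw [hB]; positivity
    have h1 := hevt L hdeg (FI L X) ⌊B⌋₊ (fun 𝔞 h => (mem_FI.1 h).2) (by
      intro 𝔞 h
      apply Nat.le_floor
      have := htb L d X hXnat 𝔞 h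
      rw [← hD, ← hB] at this
      exact this) N hN3
    have hsum : ∑ J ∈ FI L N, (1 + Real.log ((N : ℝ) / Ideal.absNorm J)) ^ 4 ≤
        (FI L N).card * D ^ (1 / 1000 : ℝ) := by
      have g0 : ∀ J ∈ FI L N, (1 + Real.log ((N : ℝ) / Ideal.absNorm J)) ^ 4 ≤ D ^ (1 / 1000 : ℝ) := by
        intro J hJ
        have hJ' := mem_FI.1 hJ
        have hJ1 : (1 : ℝ) ≤ Ideal.absNorm J := by exact_mod_cast absNorm_pos hJ'.2
        have hJN : (Ideal.absNorm J : ℝ) ≤ N := by exact_mod_cast hJ'.1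
        have g1 : Real.log ((N : ℝ) / Ideal.absNorm J) ≤ Real.log (17 * √D) := by
          apply Real.log_le_log
          · apply div_pos <;> linarith
          · exact (div_le_self (by linarith) hJ1).trans hN2
        have g2 : 0 ≤ Real.log ((N : ℝ) / Ideal.absNorm J) := by
          apply Real.log_nonneg
          rw [le_div_iff₀ (by linarith), one_mul]
          exact hJN
        calc (1 + Real.log ((N : ℝ) / Ideal.absNorm J)) ^ 4 ≤ (D ^ (1 / 4000 : ℝ)) ^ 4 := by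
              gcongr
              linarith
          _ = D ^ (1 / 1000 : ℝ) := by
              rw [← Real.rpow_natCast, ← Real.rpow_mul hDp.le]
              norm_num
      calc ∑ J ∈ FI L N, (1 + Real.log ((N : ℝ) / Ideal.absNorm J)) ^ 4
          ≤ ∑ J ∈ FI L N, D ^ (1 / 1000 : ℝ) := sum_le_sum g0
        _ = _ := by rw [sum_const, nsmul_eq_mul]
    have hh0 : (0 : ℝ) ≤ (Nat.card {c : ClassGroup (𝓞 L) // c ^ 3 = 1} : ℝ) := Nat.cast_nonneg _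
    obtain ⟨h, hh⟩ : ∃ h : ℝ, h = (Nat.card {c : ClassGroup (𝓞 L) // c ^ 3 = 1} : ℝ) := ⟨_, rfl⟩
    rw [← hh] at h1 hh0 ⊢
    -- the main inequality
    have hBB : B ≤ 8 * (CT + 1) * D ^ (2 / 1000 + (3 / 16 + 9 / 200) : ℝ) := by
      have hXD : (X : ℝ) ≤ D := by
        refine hX2.trans (e5.trans ?_)
        calc D ^ (1 / 3 : ℝ) ≤ D ^ (1 : ℝ) := Real.rpow_le_rpow_of_exponent_le hD1 (by norm_num)
          _ = D := Real.rpow_one D
      have g1 : (X : ℝ) ^ (1 / 1000 : ℝ) ≤ D ^ (1 / 1000 : ℝ) :=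
        Real.rpow_le_rpow (by linarith) hXD (by norm_num)
      have g2 : (X : ℝ) ^ (3 / 4 : ℝ) ≤ 2 * D ^ (3 / 16 + 9 / 200 : ℝ) := by
        calc (X : ℝ) ^ (3 / 4 : ℝ) ≤ (2 * D ^ (27 / 100 : ℝ)) ^ (3 / 4 : ℝ) :=
              Real.rpow_le_rpow (by linarith) hX2 (by norm_num)
          _ = 2 ^ (3 / 4 : ℝ) * D ^ (27 / 100 * (3 / 4) : ℝ) := by
              rw [Real.mul_rpow (by norm_num) (by positivity), ← Real.rpow_mul hDp.le]
          _ ≤ 2 * D ^ (3 / 16 + 9 / 200 : ℝ) := by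
              have a1 : (2 : ℝ) ^ (3 / 4 : ℝ) ≤ 2 ^ (1 : ℝ) :=
                Real.rpow_le_rpow_of_exponent_le (by norm_num) (by norm_num)
              rw [Real.rpow_one] at a1
              have a2 : D ^ (27 / 100 * (3 / 4) : ℝ) ≤ D ^ (3 / 16 + 9 / 200 : ℝ) :=
                Real.rpow_le_rpow_of_exponent_le hD1 (by norm_num)
              exact mul_le_mul a1 a2 (by positivity) (by norm_num)
      have g3 : (X : ℝ) ^ (9 / 4 : ℝ) * D ^ (-(3 / 8) : ℝ) ≤ 5 * D ^ (3 / 16 + 9 / 200 : ℝ) := by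
        calc (X : ℝ) ^ (9 / 4 : ℝ) * D ^ (-(3 / 8) : ℝ)
            ≤ (2 * D ^ (27 / 100 : ℝ)) ^ (9 / 4 : ℝ) * D ^ (-(3 / 8) : ℝ) := by
              gcongr
          _ = 2 ^ (9 / 4 : ℝ) * D ^ (27 / 100 * (9 / 4) + -(3 / 8) : ℝ) := by
              rw [Real.mul_rpow (by norm_num) (by positivity), ← Real.rpow_mul hDp.le, mul_assoc,
                ← Real.rpow_add hDp]
          _ ≤ 5 * D ^ (3 / 16 + 9 / 200 : ℝ) := by
              have a1 : (2 : ℝ) ^ (9 / 4 : ℝ) ≤ 5 := by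
                have b1 : (2 : ℝ) ^ (9 / 4 : ℝ) = (2 ^ (9 : ℕ)) ^ (1 / 4 : ℝ) := by
                  rw [← Real.rpow_natCast, ← Real.rpow_mul (by norm_num)]
                  norm_num
                rw [b1]
                calc ((2 : ℝ) ^ (9 : ℕ)) ^ (1 / 4 : ℝ) ≤ ((5 : ℝ) ^ (4 : ℕ)) ^ (1 / 4 : ℝ) :=
                      Real.rpow_le_rpow (by norm_num) (by norm_num) (by norm_num)
                  _ = 5 := by
                      rw [← Real.rpow_natCast, ← Real.rpow_mul (by norm_num)]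
                      norm_num
              have a2 : D ^ (27 / 100 * (9 / 4) + -(3 / 8) : ℝ) ≤ D ^ (3 / 16 + 9 / 200 : ℝ) :=
                Real.rpow_le_rpow_of_exponent_le hD1 (by norm_num)
              exact mul_le_mul a1 a2 (by positivity) (by norm_num)
      have g4 : (1 : ℝ) ≤ D ^ (3 / 16 + 9 / 200 : ℝ) := Real.one_le_rpow hD1 (by norm_num)
      rw [hB]
      calc CT * D ^ (1 / 1000 : ℝ) * (X : ℝ) ^ (1 / 1000 : ℝ) *
            (1 + (X : ℝ) ^ (3 / 4 : ℝ) + (X : ℝ) ^ (9 / 4 : ℝ) * D ^ (-(3 / 8) : ℝ))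
          ≤ CT * D ^ (1 / 1000 : ℝ) * D ^ (1 / 1000 : ℝ) * (8 * D ^ (3 / 16 + 9 / 200 : ℝ)) := by
            gcongr
            linarith
        _ = 8 * CT * D ^ (2 / 1000 + (3 / 16 + 9 / 200) : ℝ) := by
            have : D ^ (2 / 1000 + (3 / 16 + 9 / 200) : ℝ) =
                D ^ (1 / 1000 : ℝ) * D ^ (1 / 1000 : ℝ) * D ^ (3 / 16 + 9 / 200 : ℝ) := by
              rw [← Real.rpow_add hDp, ← Real.rpow_add hDp]
              congr 1
              norm_num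
            rw [this]
            ring
        _ ≤ _ := by
            have : 0 ≤ D ^ (2 / 1000 + (3 / 16 + 9 / 200) : ℝ) := by positivity
            nlinarith
    have hT : ((⌊B⌋₊ : ℕ) : ℝ) ≤ B := Nat.floor_le hB0
    have h2 : (κ + u) * X / 72 * h ≤ B * ((κ + u) / 36 * (3 * N) * D ^ (1 / 1000 : ℝ)) := by
      have k1 : (κ + u) * X / 72 ≤ ((FI L X).card : ℝ) := hOX.trans (by exact_mod_cast OddC_le_card X)
      calc (κ + u) * X / 72 * h ≤ ((FI L X).card : ℝ) * h := mul_le_mul_of_nonneg_right k1 hh0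
        _ ≤ (⌊B⌋₊ : ℝ) * ∑ J ∈ FI L N, (1 + Real.log ((N : ℝ) / Ideal.absNorm J)) ^ 4 := h1
        _ ≤ B * ((FI L N).card * D ^ (1 / 1000 : ℝ)) := by
            refine mul_le_mul hT hsum ?_ hB0
            exact sum_nonneg fun J hJ => by
              have hJ' := mem_FI.1 hJ
              positivity
        _ ≤ B * ((κ + u) / 36 * (3 * N) * D ^ (1 / 1000 : ℝ)) := by
            refine mul_le_mul_of_nonneg_left ?_ hB0
            exact mul_le_mul_of_nonneg_right hFI (by positivity)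
    have hku : 0 < κ + u := by linarith
    have h3 : X * h ≤ 6 * B * N * D ^ (1 / 1000 : ℝ) := by
      have k2 : (κ + u) * (X * h) ≤ (κ + u) * (6 * B * N * D ^ (1 / 1000 : ℝ)) := by
        have : B * ((κ + u) / 36 * (3 * N) * D ^ (1 / 1000 : ℝ)) * 72 =
          (κ + u) * (6 * B * N * D ^ (1 / 1000 : ℝ)) := by ring
        nlinarith
      exact le_of_mul_le_mul_left k2 hku
    have h4 : D ^ (27 / 100 : ℝ) * h ≤ Cb * D ^ (2 / 1000 + (3 / 16 + 9 / 200) + 1 / 2 + 1 / 1000 : ℝ) := by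
      calc D ^ (27 / 100 : ℝ) * h ≤ X * h := mul_le_mul_of_nonneg_right hX1 hh0
        _ ≤ 6 * B * N * D ^ (1 / 1000 : ℝ) := h3
        _ ≤ 6 * (8 * (CT + 1) * D ^ (2 / 1000 + (3 / 16 + 9 / 200) : ℝ)) * (17 * √D) * D ^ (1 / 1000 : ℝ) := by
            gcongr
        _ = Cb * D ^ (2 / 1000 + (3 / 16 + 9 / 200) + 1 / 2 + 1 / 1000 : ℝ) := by
            rw [hCb, Real.rpow_add hDp (2 / 1000 + (3 / 16 + 9 / 200) + 1 / 2), Real.rpow_add hDp _ (1 / 2 : ℝ),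
              Real.sqrt_eq_rpow]
            ring
    have h5 : h ≤ Cb * D ^ (1 / 2 - δ : ℝ) := by
      have k3 : D ^ (2 / 1000 + (3 / 16 + 9 / 200) + 1 / 2 + 1 / 1000 : ℝ) ≤
          D ^ (27 / 100 : ℝ) * D ^ (1 / 2 - δ : ℝ) := by
        rw [← Real.rpow_add hDp]
        apply Real.rpow_le_rpow_of_exponent_le hD1
        linarith
      have k4 : D ^ (27 / 100 : ℝ) * h ≤ D ^ (27 / 100 : ℝ) * (Cb * D ^ (1 / 2 - δ : ℝ)) := by
        calc D ^ (27 / 100 : ℝ) * h ≤ _ := h4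
          _ ≤ Cb * (D ^ (27 / 100 : ℝ) * D ^ (1 / 2 - δ : ℝ)) := mul_le_mul_of_nonneg_left k3 hCb0.le
          _ = _ := by ring
      exact le_of_mul_le_mul_left k4 (by positivity)
    nlinarith

end Pool.Agent.K1H79.Q3
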