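import Pool.Agent.K1H79.Q3.StmB

/-! # Project Q3: preparations for the final assembly -/

set_option autoImplicit false

namespace Pool.Agent.K1H79.Q3

open Finset NumberField Pool.Agent.TH847.LS Filter
open scoped QuadraticAlgebra Classical nonZeroDivisors

theorem jac_abs (a : ℤ) (b : ℕ) : |((jacobiSym a b : ℤ) : ℝ)| ≤ 1 := by
  rcases jacobiSym.trichotomy a b with h | h | h <;> rw [h] <;> simp

theorem XR_abs (M g : ℕ) (x : RR M g) : |XR M g x| ≤ 1 := by
  unfold XR XM XG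
  rw [abs_mul]
  exact mul_le_one₀ (jac_abs _ _) (abs_nonneg _) (jac_abs _ _)

theorem chi_abs {q : ℕ} {χ : E → ℝ} (h : Per q χ) (z : E) : |χ z| ≤ 1 := by
  obtain ⟨M, g, φ, ψ, h1, h2, h3, h4, h5⟩ := h
  rw [h5, abs_mul]
  exact mul_le_one₀ (h4 z) (abs_nonneg _) (XR_abs _ _ _)

theorem card_EB (T : ℕ) : (EB T).card ≤ (2 * T + 1) ^ 2 := by
  unfold EB
  refine (card_filter_le _ _).trans (card_image_le.trans ?_)
  rw [card_product, Int.card_Icc, sq]
  have : (T + 1 - -(T : ℤ)).toNat = 2 * T + 1 := by omega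
  rw [this]

theorem EB_mono {S T : ℕ} (h : S ≤ T) : EB S ⊆ EB T := by
  intro z hz
  rw [mem_EB] at hz ⊢
  exact ⟨hz.1, hz.2.trans h⟩

theorem RS_le {q : ℕ} {χ : E → ℝ} (h : Per q χ) (T : ℕ) : RS χ T ≤ ((2 * T + 1 : ℕ) : ℝ) ^ 4 := by
  unfold RS
  calc ∑ d ∈ EB T, χ d * (((EB (T / nm d)).filter fun e => Odd (nm e)).card : ℝ)
      ≤ ∑ d ∈ EB T, ((EB T).card : ℝ) := by
        refine sum_le_sum fun d _ => ?_
        have h1 : χ d ≤ 1 := (le_abs_self _).trans (chi_abs h d)
        have h2 : (((EB (T / nm d)).filter fun e => Odd (nm e)).card : ℝ) ≤ (EB T).card := by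
          exact_mod_cast (card_filter_le _ _).trans (card_le_card (EB_mono (Nat.div_le_self _ _)))
        calc χ d * (((EB (T / nm d)).filter fun e => Odd (nm e)).card : ℝ)
            ≤ 1 * (((EB (T / nm d)).filter fun e => Odd (nm e)).card : ℝ) :=
              mul_le_mul_of_nonneg_right h1 (Nat.cast_nonneg _)
          _ ≤ _ := by rw [one_mul]; exact h2
    _ = ((EB T).card : ℝ) ^ 2 := by rw [sum_const, nsmul_eq_mul, sq]
    _ ≤ (((2 * T + 1 : ℕ) : ℝ) ^ 2) ^ 2 := by
        gcongr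
        exact_mod_cast card_EB T
    _ = _ := by ring

variable {L : Type} [Field L] [NumberField L]

theorem OddC_zero : OddC L 0 = 0 := by
  unfold OddC
  rw [card_eq_zero, filter_eq_empty_iff]
  intro I hI
  rw [mem_FI] at hI
  have := absNorm_pos hI.2
  omega

theorem FI_mono {S T : ℕ} (h : S ≤ T) : FI L S ⊆ FI L T := by
  intro I hI
  rw [mem_FI] at hI ⊢
  exact ⟨hI.1.trans h, hI.2⟩

theorem OddC_mono {S T : ℕ} (h : S ≤ T) : OddC L S ≤ OddC L T := by
  unfold OddC
  exact card_le_card (filter_subset_filter _ (FI_mono h))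

theorem OddC_le_card (T : ℕ) : OddC L T ≤ (FI L T).card := card_filter_le _ _

/-- crude bound for the number of ideals -/
theorem crude (hC : S_CNT) (hE : S_EVN) (d : Dat L) {q : ℕ} {χ : E → ℝ} (hQ : IsQ d.α χ) (hP : Per q χ)
    (N : ℕ) : ((FI L N).card : ℝ) ≤ ((N : ℝ) + 1) ^ 2 * (2 * N + 1) ^ 4 := by
  have h1 : ∀ T ≤ N, (OddC L T : ℝ) ≤ (2 * N + 1) ^ 4 := by
    intro T hT
    have h2 := hC L d χ hQ T
    have h3 := RS_le hP T
    have h4 : ((2 * T + 1 : ℕ) : ℝ) ^ 4 ≤ (2 * N + 1) ^ 4 := by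
      push_cast
      gcongr
    have h5 : (0 : ℝ) ≤ OddC L T := Nat.cast_nonneg _
    nlinarith
  have h2 : ((FI L N).card : ℝ) ≤ ∑ j ∈ range (N + 1), ((j : ℝ) + 1) * (OddC L (N / 4 ^ j) : ℝ) := by
    exact_mod_cast hE L d N
  refine h2.trans ?_
  calc ∑ j ∈ range (N + 1), ((j : ℝ) + 1) * (OddC L (N / 4 ^ j) : ℝ)
      ≤ ∑ j ∈ range (N + 1), ((N : ℝ) + 1) * (2 * N + 1) ^ 4 := by
        refine sum_le_sum fun j hj => ?_
        rw [mem_range] at hj
        have h3 : (j : ℝ) ≤ N := by exact_mod_cast Nat.le_of_lt_succ hj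
        exact mul_le_mul (by linarith) (h1 _ (Nat.div_le_self _ _)) (Nat.cast_nonneg _) (by positivity)
    _ = _ := by
        rw [sum_const, card_range, nsmul_eq_mul]
        push_cast
        ring

/-- the sum over the powers of `4` -/
theorem sum_four (κ X : ℝ) (hκ : 0 ≤ κ) (hX : 0 ≤ X) (N : ℕ) (f : ℕ → ℝ)
    (h0 : ∀ j, N / 4 ^ j = 0 → f j = 0) (hf : ∀ j, f j ≤ κ * ((N / 4 ^ j : ℕ) : ℝ) ∨ f j ≤ κ * X) :
    ∑ j ∈ range (N + 1), ((j : ℝ) + 1) * f j ≤ κ * (2 * N + (1 + Real.log N) ^ 2 * X) := by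
  rcases Nat.eq_zero_or_pos N with rfl | hN
  · simp only [zero_add, range_one, sum_singleton, Nat.cast_zero, Real.log_zero]
    rw [h0 0 (by simp)]
    have : 0 ≤ κ * X := mul_nonneg hκ hX
    simp only [mul_zero]
    nlinarith
  -- split the sum
  have h1 : ∀ j ∈ range (N + 1), ((j : ℝ) + 1) * f j ≤
      κ * N * (1 / 2) ^ j + (if 4 ^ j ≤ N then ((j : ℝ) + 1) * (κ * X) else 0) := by
    intro j _
    by_cases hj : 4 ^ j ≤ N
    · rw [if_pos hj]
      rcases hf j with h | h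
      · have e1 : ((N / 4 ^ j : ℕ) : ℝ) ≤ N / 4 ^ j := by
          have := @Nat.cast_div_le ℝ _ _ _ N (4 ^ j)
          push_cast at this
          exact this
        have e2 : ((j : ℝ) + 1) ≤ 2 ^ j := by
          exact_mod_cast (Nat.lt_two_pow_self (n := j))
        have e3 : (0 : ℝ) ≤ ((j : ℝ) + 1) * (κ * X) := by positivity
        have e4 : ((j : ℝ) + 1) * f j ≤ κ * N * (1 / 2) ^ j := by
          calc ((j : ℝ) + 1) * f j ≤ ((j : ℝ) + 1) * (κ * (N / 4 ^ j)) := by
                refine mul_le_mul_of_nonneg_left (h.trans ?_) (by positivity)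
                exact mul_le_mul_of_nonneg_left e1 hκ
            _ ≤ 2 ^ j * (κ * (N / 4 ^ j)) := mul_le_mul_of_nonneg_right e2 (by positivity)
            _ = κ * N * (1 / 2) ^ j := by
              have : (4 : ℝ) ^ j = 2 ^ j * 2 ^ j := by rw [← mul_pow]; norm_num
              rw [this, one_div, inv_pow]
              field_simp
        linarith
      · have e5 : 0 ≤ κ * N * (1 / 2 : ℝ) ^ j := by positivity
        have e6 : ((j : ℝ) + 1) * f j ≤ ((j : ℝ) + 1) * (κ * X) :=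
          mul_le_mul_of_nonneg_left h (by positivity)
        linarith
    · rw [if_neg hj, h0 j (Nat.div_eq_of_lt (not_le.1 hj))]
      have e5 : 0 ≤ κ * N * (1 / 2 : ℝ) ^ j := by positivity
      linarith
  refine (sum_le_sum h1).trans ?_
  rw [sum_add_distrib, ← mul_sum]
  have h2 : ∑ j ∈ range (N + 1), ((1 / 2 : ℝ)) ^ j ≤ 2 := by
    have := (summable_geometric_two).sum_le_tsum (range (N + 1)) (fun i _ => by positivity)
    rwa [tsum_geometric_two] at this
  have h3 : ∑ j ∈ range (N + 1), (if 4 ^ j ≤ N then ((j : ℝ) + 1) * (κ * X) else 0) ≤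
      (1 + Real.log N) ^ 2 * (κ * X) := by
    rw [← sum_filter]
    have hlog : ∀ j : ℕ, 4 ^ j ≤ N → (j : ℝ) ≤ Real.log N := by
      intro j hj
      have e1 : ((4 : ℝ)) ^ j ≤ N := by exact_mod_cast hj
      have e2 := Real.log_le_log (by positivity) e1
      rw [Real.log_pow] at e2
      have e3 : (1 : ℝ) ≤ Real.log 4 := by
        rw [Real.le_log_iff_exp_le (by norm_num)]
        exact (Real.exp_one_lt_d9.le).trans (by norm_num)
      have e4 : (0 : ℝ) ≤ j := Nat.cast_nonneg j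
      nlinarith
    have hL : 0 ≤ Real.log N := Real.log_natCast_nonneg N
    have hcard : (((range (N + 1)).filter fun j => 4 ^ j ≤ N).card : ℝ) ≤ 1 + Real.log N := by
      have e1 : ((range (N + 1)).filter fun j => 4 ^ j ≤ N) ⊆ range (⌊Real.log N⌋₊ + 1) := by
        intro j hj
        rw [mem_filter] at hj
        rw [mem_range, Nat.lt_succ_iff]
        exact Nat.le_floor (hlog j hj.2)
      have e2 := card_le_card e1
      rw [card_range] at e2
      have e3 : ((⌊Real.log N⌋₊ : ℕ) : ℝ) ≤ Real.log N := Nat.floor_le hL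
      have e4 : (((range (N + 1)).filter fun j => 4 ^ j ≤ N).card : ℝ) ≤ ((⌊Real.log N⌋₊ + 1 : ℕ) : ℝ) := by
        exact_mod_cast e2
      push_cast at e4
      linarith
    calc ∑ j ∈ (range (N + 1)).filter (fun j => 4 ^ j ≤ N), ((j : ℝ) + 1) * (κ * X)
        ≤ ∑ j ∈ (range (N + 1)).filter (fun j => 4 ^ j ≤ N), (1 + Real.log N) * (κ * X) := by
          refine sum_le_sum fun j hj => ?_
          rw [mem_filter] at hj
          have := hlog j hj.2
          exact mul_le_mul_of_nonneg_right (by linarith) (by positivity)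
      _ = (((range (N + 1)).filter fun j => 4 ^ j ≤ N).card : ℝ) * ((1 + Real.log N) * (κ * X)) := by
          rw [sum_const, nsmul_eq_mul]
      _ ≤ (1 + Real.log N) * ((1 + Real.log N) * (κ * X)) :=
          mul_le_mul_of_nonneg_right hcard (by positivity)
      _ = _ := by ring
  have h4 : κ * N * ∑ j ∈ range (N + 1), ((1 / 2 : ℝ)) ^ j ≤ κ * N * 2 :=
    mul_le_mul_of_nonneg_left h2 (by positivity)
  nlinarith

end Pool.Agent.K1H79.Q3
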